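import Pool.Agent.Helper12.ET.Spec

/-!
# UP: the upper bound for the weighted number of pairs
-/

set_option autoImplicit false

namespace Pool.Agent.Helper68.ET.UP

open Pool.Agent.Helper12.ET

theorem w_nonneg (N : ℕ) (m : ℤ) : 0 ≤ w N m := le_max_left _ _

theorem W_nonneg (F : Finset ℕ) (N r : ℕ) : 0 ≤ W F N r :=
  Finset.sum_nonneg fun _ _ => Finset.sum_nonneg fun _ _ => w_nonneg _ _

theorem W_zero (F : Finset ℕ) (N : ℕ) : W F N 0 = N := by
  unfold W P
  rw [show (Fintype.piFinset fun _ : Fin 0 => F) = {fun i => i.elim0} from ?_]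
  · simp [sg, w]
  · ext u
    simp only [Fintype.mem_piFinset, Finset.mem_singleton]
    constructor
    · intro _
      funext i
      exact i.elim0
    · intro _ i
      exact i.elim0

theorem convex (hCS : S_CS) (F : Finset ℕ) (N r : ℕ) :
    W F N r ^ (r + 1) ≤ (N : ℝ) * W F N (r + 1) ^ r := by
  induction r with
  | zero => simp [W_zero]
  | succ r ih =>
    have h0 := W_nonneg F N (r + 1)
    have h2 := W_nonneg F N (r + 2)
    have hN : (0 : ℝ) ≤ N := Nat.cast_nonneg _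
    rcases h0.eq_or_lt with h | h
    · rw [← h, zero_pow (by omega)]
      positivity
    · have h1 := pow_le_pow_left₀ (sq_nonneg _) (hCS F N r) (r + 1)
      rw [mul_pow] at h1
      have h3 : W F N r ^ (r + 1) * W F N (r + 2) ^ (r + 1) ≤
          ((N : ℝ) * W F N (r + 1) ^ r) * W F N (r + 2) ^ (r + 1) :=
        mul_le_mul_of_nonneg_right ih (pow_nonneg h2 _)
      have h4 : W F N (r + 1) ^ r * W F N (r + 1) ^ (r + 2) ≤
          W F N (r + 1) ^ r * ((N : ℝ) * W F N (r + 2) ^ (r + 1)) := by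
        calc W F N (r + 1) ^ r * W F N (r + 1) ^ (r + 2) = (W F N (r + 1) ^ 2) ^ (r + 1) := by
              ring
          _ ≤ _ := h1.trans h3
          _ = _ := by ring
      exact le_of_mul_le_mul_left h4 (pow_pos h r)

theorem main (hCS : S_CS) (hOV : S_OV) (hSZ : S_SIZE) : S_UP := by
  intro g k hk
  obtain ⟨C, hC, hS⟩ := hSZ g k hk
  refine ⟨4 * g + (2 * (k : ℝ) ^ 2) ^ k * Real.sqrt C + 1, by positivity, ?_⟩
  intro F N hN hF hx
  obtain ⟨r, rfl⟩ : ∃ r, k = r + 1 := ⟨k - 1, by omega⟩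
  have hN1 : (1 : ℝ) ≤ N := by exact_mod_cast hN
  have hcv := convex hCS F N r
  have hov := hOV F N g r hF
  have hsz := hS F (N ^ 2) (Nat.one_le_pow _ _ hN) hF hx
  push_cast at hsz
  have ha0 := W_nonneg F N (r + 1)
  have hb0 := W_nonneg F N r
  set a := W F N (r + 1) with ha
  set b := W F N r with hb
  have hcard : (F.card : ℝ) ^ (r + 1) ≤ Real.sqrt C * N := by
    have h1 : ((F.card : ℝ) ^ (r + 1)) ^ 2 ≤ (Real.sqrt C * N) ^ 2 := by
      rw [mul_pow, Real.sq_sqrt hC.le, ← pow_mul, mul_comm (r + 1) 2]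
      exact hsz
    exact (sq_le_sq₀ (by positivity) (by positivity)).1 h1
  have hpos : (0 : ℝ) ≤ (2 * ((r + 1 : ℕ) : ℝ) ^ 2) ^ (r + 1) * Real.sqrt C := by positivity
  rcases le_or_gt a (4 * g * (N : ℝ) ^ 2) with h | h
  · nlinarith [sq_nonneg (N : ℝ)]
  · have ha1 : 0 < a := lt_of_le_of_lt (by positivity) h
    have h1 : a ≤ 2 * ((r + 1 : ℕ) : ℝ) ^ 2 * F.card * b := by
      push_cast
      nlinarith
    have h2 : a ^ (r + 1) ≤ (2 * ((r + 1 : ℕ) : ℝ) ^ 2 * F.card * b) ^ (r + 1) :=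
      pow_le_pow_left₀ ha0 h1 _
    have h3 : a ^ r * a ≤ a ^ r * ((2 * ((r + 1 : ℕ) : ℝ) ^ 2) ^ (r + 1) *
        (F.card : ℝ) ^ (r + 1) * N) := by
      calc a ^ r * a = a ^ (r + 1) := by ring
        _ ≤ _ := h2
        _ = ((2 * ((r + 1 : ℕ) : ℝ) ^ 2) ^ (r + 1) * (F.card : ℝ) ^ (r + 1)) * b ^ (r + 1) := by
            rw [mul_pow, mul_pow]
        _ ≤ ((2 * ((r + 1 : ℕ) : ℝ) ^ 2) ^ (r + 1) * (F.card : ℝ) ^ (r + 1)) * (N * a ^ r) :=
            mul_le_mul_of_nonneg_left hcv (by positivity)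
        _ = _ := by ring
    have h4 := le_of_mul_le_mul_left h3 (pow_pos ha1 r)
    have h5 : (2 * ((r + 1 : ℕ) : ℝ) ^ 2) ^ (r + 1) * (F.card : ℝ) ^ (r + 1) * N ≤
        (2 * ((r + 1 : ℕ) : ℝ) ^ 2) ^ (r + 1) * (Real.sqrt C * N) * N :=
      mul_le_mul_of_nonneg_right (mul_le_mul_of_nonneg_left hcard (by positivity))
        (by positivity)
    have h6 : (0 : ℝ) ≤ (4 * g + 1) * (N : ℝ) ^ 2 := by positivity
    nlinarith

end Pool.Agent.Helper68.ET.UP
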